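import Pool.Agent.X170.Miller.Main

/-!
# MP_86f038_nt (helper170): the conjectured threshold `m(12ℓ) = 10 s + m_r` for Miller basis forms
with zeros off the arc is false

All objects are given by their `q`-expansions: `E₄`, `E₆`, `Δ = (E₄³ - E₆²)/1728`, `j = E₄³/Δ`.
`F_{12ℓ,m}` is the monic polynomial of degree `ℓ - m` with `Δ^ℓ F(j) = q^m + O(q^{ℓ+1})`; the form
`f_{12ℓ,m} = Δ^ℓ F(j)` has a zero not on the arc if and only if `F_{12ℓ,m}` has a complex root
outside `[0, 1728]` (problem file).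

Proof.  `F_{12ℓ,m}(0)` is the coefficient of `q^{ℓ-m}` in `(E₆/E₄) ∏ (1-qⁿ)^{-24ℓ}`; when this is
negative and `ℓ - m` is even, the product of the roots is negative.  This happens for
`(ℓ, m) = (160, 102)` and `(304, 192)`, where the conjecture predicts `m(12ℓ) = 104` and `194`.
(The true slope of the threshold is `0.62025...`, not `10/16`.)
-/

set_option autoImplicit false

namespace Pool.Agent.Results.MP_86f038_nt.ThresholdFormulaFails

open PowerSeries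

/-- `E₄ = 1 + 240 Σ σ₃(n) qⁿ` -/
noncomputable def E4 : PowerSeries ℂ :=
  PowerSeries.mk fun n => if n = 0 then 1 else 240 * (ArithmeticFunction.sigma 3 n : ℂ)

/-- `E₆ = 1 - 504 Σ σ₅(n) qⁿ` -/
noncomputable def E6 : PowerSeries ℂ :=
  PowerSeries.mk fun n => if n = 0 then 1 else -504 * (ArithmeticFunction.sigma 5 n : ℂ)

/-- `Δ = (E₄³ - E₆²) / 1728` -/
noncomputable def Dl : PowerSeries ℂ := PowerSeries.C (1 / 1728 : ℂ) * (E4 ^ 3 - E6 ^ 2)

/-- `Δ^ℓ F(j) = Σ_i a_i E₄^{3i} Δ^{ℓ-i}` for `F = Σ_i a_i X^i` of degree at most `ℓ` -/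
noncomputable def form (l : ℕ) (F : Polynomial ℂ) : PowerSeries ℂ :=
  ∑ i ∈ Finset.range (l + 1), PowerSeries.C (F.coeff i) * (E4 ^ (3 * i) * Dl ^ (l - i))

/-- `F = F_{12ℓ,m}`: monic of degree `ℓ - m` with `Δ^ℓ F(j) = q^m + O(q^{ℓ+1})` -/
def IsFaber (l m : ℕ) (F : Polynomial ℂ) : Prop :=
  F.Monic ∧ F.natDegree = l - m ∧
    ∀ n ≤ l, PowerSeries.coeff n (form l F) = if n = m then 1 else 0

/-- `F_{12ℓ,m}` has a complex root outside `[0, 1728]`, i.e. `f_{12ℓ,m}` has a zero off the arc -/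
def Off (l m : ℕ) : Prop :=
  ∃ F : Polynomial ℂ, IsFaber l m F ∧ ∃ x : ℂ, F.IsRoot x ∧ ¬ (x.im = 0 ∧ 0 ≤ x.re ∧ x.re ≤ 1728)

/-- `m(12ℓ)` -/
noncomputable def thr (l : ℕ) : ℕ := sInf {m : ℕ | m ≤ l ∧ Off l m}

/-- `(m_0, ..., m_15)` -/
def tab (r : ℕ) : ℕ := [4, 3, 4, 5, 6, 7, 6, 7, 8, 9, 10, 9, 10, 11, 12, 13].getD r 0

theorem thr_le {l m : ℕ} (hml : m ≤ l) (h : Off l m) : thr l ≤ m := Nat.sInf_le ⟨hml, h⟩

/-- The conjecture of Q1 is false. -/
theorem result :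
    (∀ l m : ℕ, m ≤ l → ∃! F : Polynomial ℂ, IsFaber l m F) ∧
    Off 160 102 ∧ Off 304 192 ∧
    thr 160 < 10 * (160 / 16) + tab (160 % 16) ∧
    thr 304 < 10 * (304 / 16) + tab (304 % 16) ∧
    ¬ (∀ l : ℕ, 30 < l → thr l = 10 * (l / 16) + tab (l % 16) ∧
        ∀ m : ℕ, thr l ≤ m → m ≤ l - 1 → Off l m) := by
  have h1 : Off 160 102 := Pool.Agent.X170.Miller.off160
  have h2 : Off 304 192 := Pool.Agent.X170.Miller.off304
  have e1 : 10 * (160 / 16) + tab (160 % 16) = 104 := by decide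
  have e2 : 10 * (304 / 16) + tab (304 % 16) = 194 := by decide
  have t1 := thr_le (by norm_num) h1
  have t2 := thr_le (by norm_num) h2
  refine ⟨?_, h1, h2, by omega, by omega, ?_⟩
  · intro l m hml
    obtain ⟨F, hF⟩ := Pool.Agent.X170.Miller.exists_faber Pool.Agent.X170.Miller.U_zero l m hml
    exact ⟨F, hF, fun F' hF' =>
      Pool.Agent.X170.Miller.faber_unique Pool.Agent.X170.Miller.U_zero l m F' F hF' hF⟩
  · intro h
    have := (h 160 (by norm_num)).1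
    omega

end Pool.Agent.Results.MP_86f038_nt.ThresholdFormulaFails
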